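import Pool.Agent.N361.DC.Def

/-!
# DC/INNER (helper361, subtask 6060): the load of the down edges inside one member
-/

set_option autoImplicit false

namespace Pool.Agent.N521.DC

open Finset
open Pool.Agent.N361.DC

lemma bet_nonneg (a c : ℕ) : 0 ≤ bet a c := by
  unfold bet
  positivity

lemma bet_anti (a c : ℕ) : bet (a + 1) c ≤ bet a c := by
  unfold bet
  have e : a + 1 + c = (a + c) + 1 := by ring
  rw [e, Nat.factorial_succ, Nat.factorial_succ]
  rw [div_le_div_iff₀ (by positivity) (by positivity)]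
  push_cast
  have h1 : (a : ℚ) + 1 ≤ a + c + 1 := by
    have : (0 : ℚ) ≤ c := Nat.cast_nonneg c
    linarith
  have hp : (0 : ℚ) ≤ (a.factorial : ℚ) * ((c - 1).factorial : ℚ) * ((a + c).factorial : ℚ) := by
    positivity
  have h2 := mul_le_mul_of_nonneg_right h1 hp
  linarith

lemma psi_nonneg (k : ℕ) : 0 ≤ psi k := by
  unfold psi
  refine div_nonneg ?_ (Nat.cast_nonneg _)
  have : (1 : ℚ) ≤ 2 ^ (k - 1) := one_le_pow₀ (by norm_num)
  linarith

theorem inner (hN : S_NUM) : S_INNER := by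
  intro L S A U hL hU hUS hne hsub hA
  -- the condition
  set cond : Finset ℕ × ℕ → Prop := fun z =>
    z.2 ∉ z.1 ∧ insert z.2 z.1 ∉ L ∧ insert z.2 z.1 ⊆ S ∧ S \ insert z.2 z.1 ⊆ A with hcond
  set c := (A \ S).card with hc
  set T := (L ×ˢ A).filter cond with hT
  have hsum : ∑ R ∈ L, ∑ i ∈ A, (if i ∉ R ∧ insert i R ∉ L ∧ insert i R ⊆ S ∧ S \ insert i R ⊆ A then
      bet (S \ insert i R).card (A \ S).card else 0) = ∑ z ∈ T, bet (S \ insert z.2 z.1).card c := by
    rw [hT, sum_filter, sum_product]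
  rw [hsum]
  have hc1 : 1 ≤ c := by
    rw [hc]
    refine card_pos.2 ?_
    rw [sdiff_nonempty]
    exact hA
  -- facts on the pairs
  have hz : ∀ z ∈ T, z.1 ∈ L ∧ z.2 ∈ A ∧ z.2 ∉ z.1 ∧ insert z.2 z.1 ∉ L ∧ z.2 ∈ S ∧ z.1 ⊆ U ∧
      S \ z.1 ⊆ A := by
    intro z hz
    rw [hT, mem_filter, mem_product, hcond] at hz
    obtain ⟨⟨h1, h2⟩, h3, h4, h5, h6⟩ := hz
    have h7 : z.1 ⊆ S := (subset_insert _ _).trans h5
    refine ⟨h1, h2, h3, h4, h5 (mem_insert_self _ _), hsub _ h1 h7, ?_⟩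
    intro x hx
    rw [mem_sdiff] at hx
    by_cases hxi : x = z.2
    · rw [hxi]; exact h2
    · exact h6 (mem_sdiff.2 ⟨hx.1, fun h => by
        rcases mem_insert.1 h with h | h
        · exact hxi h
        · exact hx.2 h⟩)
  by_cases hSU : S \ U ⊆ A
  swap
  · have hT0 : T = ∅ := by
      rw [eq_empty_iff_forall_notMem]
      intro z hzT
      obtain ⟨-, -, -, -, -, h6, h7⟩ := hz z hzT
      exact hSU ((sdiff_subset_sdiff (Subset.refl S) h6).trans h7)
    rw [hT0, sum_empty]
    exact psi_nonneg _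
  set n := (S \ U).card with hn
  set u := (A ∩ U).card with hu
  have hn1 : 1 ≤ n := by
    rw [hn]
    refine card_pos.2 ?_
    rw [sdiff_nonempty]
    exact fun h => hne (Subset.antisymm hUS h)
  have hAS : (A ∩ S).card = n + u := by
    have e : A ∩ S = (S \ U) ∪ (A ∩ U) := by
      ext x
      simp only [mem_inter, mem_union, mem_sdiff]
      constructor
      · rintro ⟨h1, h2⟩
        by_cases h : x ∈ U
        · exact Or.inr ⟨h1, h⟩
        · exact Or.inl ⟨h2, h⟩
      · rintro (⟨h1, h2⟩ | ⟨h1, h2⟩)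
        · exact ⟨hSU (mem_sdiff.2 ⟨h1, h2⟩), h1⟩
        · exact ⟨h1, hUS h2⟩
    rw [e, card_union_of_disjoint]
    rw [disjoint_left]
    intro x hx hx'
    exact (mem_sdiff.1 hx).2 (mem_inter.1 hx').2
  have hAc : A.card = n + u + c := by
    have := card_sdiff_add_card_inter A S
    omega
  -- the cardinalities
  have hcard : ∀ z ∈ T, (z.1 ∩ A).card ≤ u ∧ (S \ insert z.2 z.1).card + 1 + (z.1 ∩ A).card = n + u := by
    intro z hzT
    obtain ⟨h1, h2, h3, h4, h5, h6, h7⟩ := hz z hzT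
    have e : A ∩ S = (S \ z.1) ∪ (z.1 ∩ A) := by
      ext x
      simp only [mem_inter, mem_union, mem_sdiff]
      constructor
      · rintro ⟨h1, h2⟩
        by_cases h : x ∈ z.1
        · exact Or.inr ⟨h, h1⟩
        · exact Or.inl ⟨h2, h⟩
      · rintro (⟨h1, h2⟩ | ⟨h1, h2⟩)
        · exact ⟨h7 (mem_sdiff.2 ⟨h1, h2⟩), h1⟩
        · exact ⟨h2, hUS (h6 h1)⟩
    have h8 : (A ∩ S).card = (S \ z.1).card + (z.1 ∩ A).card := by
      rw [e, card_union_of_disjoint]
      rw [disjoint_left]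
      intro x hx hx'
      exact (mem_sdiff.1 hx).2 (mem_inter.1 hx').1
    have h9 : (S \ insert z.2 z.1).card + 1 = (S \ z.1).card := by
      have e2 : S \ insert z.2 z.1 = (S \ z.1).erase z.2 := by
        ext x
        simp only [mem_sdiff, mem_insert, mem_erase, not_or]
        tauto
      rw [e2]
      exact card_erase_add_one (mem_sdiff.2 ⟨h5, h3⟩)
    refine ⟨?_, by omega⟩
    refine card_le_card ?_
    intro x hx
    rw [mem_inter] at hx ⊢
    exact ⟨hx.2, h6 hx.1⟩
  have hdec : ∀ z ∈ T, (S \ A) ∪ (z.1 ∩ A) = z.1 := by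
    intro z hzT
    obtain ⟨h1, h2, h3, h4, h5, h6, h7⟩ := hz z hzT
    ext x
    simp only [mem_inter, mem_union, mem_sdiff]
    constructor
    · rintro (⟨h8, h9⟩ | ⟨h8, h9⟩)
      · by_contra h
        exact h9 (h7 (mem_sdiff.2 ⟨h8, h⟩))
      · exact h8
    · intro h
      by_cases h9 : x ∈ A
      · exact Or.inr ⟨h, h9⟩
      · exact Or.inl ⟨hUS (h6 h), h9⟩
  -- the weight of a subset of `A ∩ U`
  set g : Finset ℕ → ℚ := fun Z => bet (n + u - Z.card - 1) c with hg
  have hg0 : ∀ Z, 0 ≤ g Z := fun Z => bet_nonneg _ _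
  have hn1' : (1 : ℚ) ≤ n := by exact_mod_cast hn1
  set T1 := T.filter (fun z => z.2 ∉ U) with hT1
  set T2 := T.filter (fun z => ¬ z.2 ∉ U) with hT2
  set P1 := (A ∩ U).powerset.filter (fun Z => (S \ A) ∪ Z ∈ L) with hP1
  set P2 := (A ∩ U).powerset.filter (fun Z => ¬ (S \ A) ∪ Z ∈ L) with hP2
  have hsub1 : ∀ z ∈ T, z.1 ∩ A ⊆ A ∩ U := by
    intro z hzT x hx
    rw [mem_inter] at hx ⊢
    exact ⟨hx.2, (hz z hzT).2.2.2.2.2.1 hx.1⟩
  -- first kind
  have hs1 : ∑ z ∈ T1, bet (S \ insert z.2 z.1).card c ≤ n * ∑ Z ∈ P1, g Z := by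
    have e1 : (n : ℚ) * ∑ Z ∈ P1, g Z = ∑ y ∈ P1 ×ˢ (S \ U), g y.1 := by
      rw [sum_product]
      simp only [sum_const, nsmul_eq_mul]
      rw [mul_sum]
    have e2 : ∑ z ∈ T1, bet (S \ insert z.2 z.1).card c = ∑ z ∈ T1, g (z.1 ∩ A) := by
      refine sum_congr rfl fun z hz1 => ?_
      have hzT := (mem_filter.1 hz1).1
      have h1 := hcard z hzT
      simp only [hg]
      congr 1
      omega
    have hinj : Set.InjOn (fun z : Finset ℕ × ℕ => (z.1 ∩ A, z.2)) T1 := by
      intro z hz1 z' hz1' h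
      have hzT := (mem_filter.1 (mem_coe.1 hz1)).1
      have hzT' := (mem_filter.1 (mem_coe.1 hz1')).1
      simp only [Prod.mk.injEq] at h
      refine Prod.ext ?_ h.2
      rw [← hdec z hzT, ← hdec z' hzT', h.1]
    have e3 : ∑ z ∈ T1, g (z.1 ∩ A) = ∑ y ∈ T1.image (fun z => (z.1 ∩ A, z.2)), g y.1 := by
      rw [sum_image hinj]
    rw [e1, e2, e3]
    refine sum_le_sum_of_subset_of_nonneg ?_ fun y _ _ => hg0 _
    intro y hy
    rw [mem_image] at hy
    obtain ⟨z, hz1, rfl⟩ := hy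
    obtain ⟨hzT, hzU⟩ := mem_filter.1 hz1
    obtain ⟨h1, h2, h3, h4, h5, h6, h7⟩ := hz z hzT
    rw [mem_product, hP1, mem_filter, mem_powerset]
    refine ⟨⟨hsub1 z hzT, ?_⟩, mem_sdiff.2 ⟨h5, hzU⟩⟩
    rw [hdec z hzT]
    exact h1
  -- second kind
  have hs2 : ∑ z ∈ T2, bet (S \ insert z.2 z.1).card c ≤ n * ∑ Z ∈ P2, g Z := by
    have hmem : ∀ z ∈ T2, z ∈ T ∧ z.2 ∈ U := by
      intro z hz2
      rw [hT2, mem_filter, not_not] at hz2
      exact hz2
    have hins : ∀ z ∈ T, (S \ A) ∪ insert z.2 (z.1 ∩ A) = insert z.2 z.1 := by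
      intro z hzT
      rw [union_insert, hdec z hzT]
    have h1 : ∀ z ∈ T2, bet (S \ insert z.2 z.1).card c ≤ n * g (insert z.2 (z.1 ∩ A)) := by
      intro z hz2
      obtain ⟨hzT, hzU⟩ := hmem z hz2
      have h2 := hcard z hzT
      have h3 : (insert z.2 (z.1 ∩ A)).card = (z.1 ∩ A).card + 1 := by
        refine card_insert_of_notMem fun h => ?_
        exact (hz z hzT).2.2.1 (mem_inter.1 h).1
      have h4 : (insert z.2 (z.1 ∩ A)).card ≤ u := by
        refine card_le_card ?_
        intro x hx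
        rcases mem_insert.1 hx with rfl | hx
        · exact mem_inter.2 ⟨(hz z hzT).2.1, hzU⟩
        · exact hsub1 z hzT hx
      have h5 : (S \ insert z.2 z.1).card = (n + u - (insert z.2 (z.1 ∩ A)).card - 1) + 1 := by omega
      rw [h5]
      refine (bet_anti _ _).trans ?_
      have h6 := hg0 (insert z.2 (z.1 ∩ A))
      have h7 : g (insert z.2 (z.1 ∩ A)) ≤ n * g (insert z.2 (z.1 ∩ A)) := by nlinarith
      exact h7
    have hinj : Set.InjOn (fun z : Finset ℕ × ℕ => insert z.2 (z.1 ∩ A)) T2 := by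
      intro z hz2 z' hz2' h
      have hzT := (hmem z (mem_coe.1 hz2)).1
      have hzT' := (hmem z' (mem_coe.1 hz2')).1
      have h2 : insert z.2 z.1 = insert z'.2 z'.1 := by
        rw [← hins z hzT, ← hins z' hzT']
        simp only at h
        rw [h]
      obtain ⟨a1, a2, a3, a4, -⟩ := hz z hzT
      obtain ⟨b1, b2, b3, b4, -⟩ := hz z' hzT'
      by_cases hi : z.2 = z'.2
      · refine Prod.ext ?_ hi
        have e1 : z.1 = (insert z.2 z.1).erase z.2 := (erase_insert a3).symm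
        have e2 : z'.1 = (insert z'.2 z'.1).erase z'.2 := (erase_insert b3).symm
        rw [e1, e2, h2, hi]
      · exfalso
        apply a4
        have e : insert z.2 z.1 = z.1 ∪ z'.1 := by
          ext x
          rw [mem_union]
          constructor
          · intro hx
            by_cases hxz : x ∈ z.1
            · exact Or.inl hxz
            · right
              have hxi : x = z.2 := by
                rcases mem_insert.1 hx with h | h
                · exact h
                · exact absurd h hxz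
              rw [h2] at hx
              rcases mem_insert.1 hx with h | h
              · exact absurd (hxi.symm.trans h) hi
              · exact h
          · rintro (hx | hx)
            · exact mem_insert_of_mem hx
            · rw [h2]
              exact mem_insert_of_mem hx
        rw [e]
        exact hL _ a1 _ b1
    refine (sum_le_sum h1).trans ?_
    rw [← mul_sum]
    refine mul_le_mul_of_nonneg_left ?_ (by linarith)
    have e3 : ∑ z ∈ T2, g (insert z.2 (z.1 ∩ A)) =
        ∑ y ∈ T2.image (fun z => insert z.2 (z.1 ∩ A)), g y := by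
      rw [sum_image hinj]
    rw [e3]
    refine sum_le_sum_of_subset_of_nonneg ?_ fun y _ _ => hg0 _
    intro y hy
    rw [mem_image] at hy
    obtain ⟨z, hz2, rfl⟩ := hy
    obtain ⟨hzT, hzU⟩ := hmem z hz2
    obtain ⟨h1, h2, h3, h4, h5, h6, h7⟩ := hz z hzT
    rw [hP2, mem_filter, mem_powerset]
    refine ⟨?_, ?_⟩
    · intro x hx
      rcases mem_insert.1 hx with rfl | hx
      · exact mem_inter.2 ⟨h2, hzU⟩
      · exact hsub1 z hzT hx
    · rw [hins z hzT]
      exact h4
  -- the total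
  have htot : ∑ z ∈ T, bet (S \ insert z.2 z.1).card c ≤ n * ∑ Z ∈ (A ∩ U).powerset, g Z := by
    rw [← sum_filter_add_sum_filter_not T (fun z => z.2 ∉ U), ← sum_filter_add_sum_filter_not
      (A ∩ U).powerset (fun Z => (S \ A) ∪ Z ∈ L), mul_add]
    exact add_le_add hs1 hs2
  refine htot.trans ?_
  have e1 : ∑ Z ∈ (A ∩ U).powerset, g Z = ∑ p ∈ range (u + 1), (u.choose p : ℚ) * bet (n - 1 + p) c := by
    have h1 := sum_powerset_apply_card (x := A ∩ U) (fun k => bet (n + u - k - 1) c)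
    have h2 : ∑ Z ∈ (A ∩ U).powerset, g Z = ∑ m ∈ (A ∩ U).powerset, (fun k => bet (n + u - k - 1) c) m.card := rfl
    rw [h2, h1, ← hu]
    rw [← sum_flip (fun p => (u.choose p : ℚ) * bet (n - 1 + p) c)]
    refine sum_congr rfl fun k hk => ?_
    have hk' : k ≤ u := by
      have := mem_range.1 hk
      omega
    rw [nsmul_eq_mul, Nat.choose_symm hk']
    congr 2
    omega
  rw [e1, hAc]
  exact hN n u c hn1 hc1

end Pool.Agent.N521.DC
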